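import Pool.Agent.Lib.MP_045051_co.Planar

/-!
The combinatorial part: counting how many of the points touch the sides of the cluster.
-/

namespace Pool.Agent.Lib.MP_045051_co.Planar

open Finset

variable {ι : Type*} [Fintype ι]

theorem card_touch_le_two {b : ℕ} (z u : ℝ) (τ : Fin b → ℝ) (hτ : StrictMono τ) :
    (Finset.univ.filter (fun i : Fin b => g z u (τ i) = 0)).card ≤ 2 := by
  by_contra hcon
  push Not at hcon
  obtain ⟨x, y, w, hx, hy, hw, hxy, hxw, hyw⟩ := Finset.two_lt_card_iff.mp hcon
  simp only [Finset.mem_filter, Finset.mem_univ, true_and] at hx hy hw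
  rcases lt_or_gt_of_ne hxy with h1 | h1 <;> rcases lt_or_gt_of_ne hxw with h2 | h2 <;>
    rcases lt_or_gt_of_ne hyw with h3 | h3
  · exact not_three (hτ h1) (hτ h3) hx hy hw
  · exact not_three (hτ h2) (hτ h3) hx hw hy
  · exact absurd (lt_trans h1 h3) (not_lt.mpr h2.le)
  · exact not_three (hτ h2) (hτ h1) hw hx hy
  · exact not_three (hτ h1) (hτ h2) hy hx hw
  · exact absurd (lt_trans h1 h2) (not_lt.mpr h3.le)
  · exact not_three (hτ h3) (hτ h2) hy hw hx
  · exact not_three (hτ h3) (hτ h1) hw hy hx

/-- Planar core: there is no family of `b + 3` centred isotropic planar points inscribed in the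
polygon with `b` sides near `z = 1` and the two sides `± 24 u = 25 + 7 z`. -/
theorem planar_core (b : ℕ) (hb : b = 5 ∨ 7 ≤ b) (hM : Fintype.card ι = b + 3)
    (z u : ι → ℝ) (hz : ∑ j, z j = 0) (hu : ∑ j, u j = 0)
    (hzz : ∑ j, (z j) ^ 2 = ∑ j, (u j) ^ 2) (hzu : ∑ j, u j * z j = 0)
    (hA : ∀ j, |u j| * 24 ≤ 25 + 7 * z j)
    (τ : Fin b → ℝ) (hτ : StrictMono τ) (hτ1 : ∀ i, |τ i| ≤ 1 / 1000)
    (hle : ∀ j i, 0 ≤ g (z j) (u j) (τ i))
    (heq : ∀ i, ∃ j, g (z j) (u j) (τ i) = 0) : False := by
  classical
  choose c hc using heq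
  have hb5 : 5 ≤ b := by omega
  set fi : Fin b := ⟨0, by omega⟩ with hfi
  set la : Fin b := ⟨b - 1, by omega⟩ with hla
  have hfl : fi < la := by rw [hfi, hla, Fin.mk_lt_mk]; omega
  set K : Finset ι := Finset.univ.filter (fun j =>
    (∃ i, fi < i ∧ i < la ∧ g (z j) (u j) (τ i) = 0) ∨
      (g (z j) (u j) (τ fi) = 0 ∧ g (z j) (u j) (τ la) = 0)) with hK
  set L : Finset ι := (Finset.univ.filter (fun j => g (z j) (u j) (τ fi) = 0)) \ K with hL
  set R : Finset ι := (Finset.univ.filter (fun j => g (z j) (u j) (τ la) = 0)) \ K with hR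
  have zb : ∀ j i, g (z j) (u j) (τ i) = 0 → |z j - 1| ≤ 3 / 1000 :=
    fun j i h => touch_bound (hτ1 i) (hA j) h
  have hKz : ∀ j ∈ K, |z j - 1| ≤ 3 / 1000 := by
    intro j hj
    rw [hK, Finset.mem_filter] at hj
    rcases hj.2 with ⟨i, _, _, h⟩ | ⟨h, _⟩
    · exact zb j i h
    · exact zb j fi h
  have hKu : ∀ j ∈ K, |u j| ≤ 3 / 1000 := by
    intro j hj
    have hzj := hKz j hj
    rw [hK, Finset.mem_filter] at hj
    rcases hj.2 with ⟨i, hi1, hi2, h⟩ | ⟨h1, h2⟩
    · rw [abs_le]
      exact ⟨lower_of_touch (hτ1 fi) (hτ1 i) (hτ hi1) hzj (hle j fi) h,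
        upper_of_touch (hτ1 la) (hτ1 i) (hτ hi2) hzj (hle j la) h⟩
    · exact two_bound (hτ1 fi) (hτ1 la) (hτ hfl) hzj h1 h2
  have hLt : ∀ j ∈ L, g (z j) (u j) (τ fi) = 0 := by
    intro j hj
    rw [hL, Finset.mem_sdiff, Finset.mem_filter] at hj
    exact hj.1.2
  have hRt : ∀ j ∈ R, g (z j) (u j) (τ la) = 0 := by
    intro j hj
    rw [hR, Finset.mem_sdiff, Finset.mem_filter] at hj
    exact hj.1.2
  have hLK : Disjoint K L := by
    rw [Finset.disjoint_left]
    intro j h1 h2
    rw [hL, Finset.mem_sdiff] at h2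
    exact h2.2 h1
  have hRK : Disjoint K R := by
    rw [Finset.disjoint_left]
    intro j h1 h2
    rw [hR, Finset.mem_sdiff] at h2
    exact h2.2 h1
  have hLR : Disjoint L R := by
    rw [Finset.disjoint_left]
    intro j h1 h2
    have h3 : j ∉ K := by
      rw [hL, Finset.mem_sdiff] at h1
      exact h1.2
    apply h3
    rw [hK, Finset.mem_filter]
    exact ⟨Finset.mem_univ _, Or.inr ⟨hLt j h1, hRt j h2⟩⟩
  -- where the chosen points are
  have cint : ∀ i, fi < i → i < la → c i ∈ K := by
    intro i h1 h2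
    rw [hK, Finset.mem_filter]
    exact ⟨Finset.mem_univ _, Or.inl ⟨i, h1, h2, hc i⟩⟩
  have cfi : c fi ∈ K ∨ c fi ∈ L := by
    by_cases h : c fi ∈ K
    · exact Or.inl h
    · right
      rw [hL, Finset.mem_sdiff, Finset.mem_filter]
      exact ⟨⟨Finset.mem_univ _, hc fi⟩, h⟩
  have cla : c la ∈ K ∨ c la ∈ R := by
    by_cases h : c la ∈ K
    · exact Or.inl h
    · right
      rw [hR, Finset.mem_sdiff, Finset.mem_filter]
      exact ⟨⟨Finset.mem_univ _, hc la⟩, h⟩
  have tri : ∀ i : Fin b, i = fi ∨ i = la ∨ (fi < i ∧ i < la) := by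
    intro i
    rcases Nat.eq_zero_or_pos i.val with h | h
    · left; apply Fin.ext; simpa [hfi] using h
    · rcases Nat.lt_or_ge i.val (b - 1) with h' | h'
      · right; right
        exact ⟨by rw [hfi, Fin.lt_def]; exact h, by rw [hla, Fin.lt_def]; exact h'⟩
      · right; left; apply Fin.ext
        have := i.isLt
        simp only [hla]; omega
  -- counting
  have count : ∀ (I : Finset (Fin b)) (W : Finset ι), (∀ i ∈ I, c i ∈ W) →
      I.card ≤ 2 * W.card := by
    intro I W hIW
    apply Finset.card_le_mul_card_image_of_maps_to hIW 2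
    intro j _
    refine le_trans (Finset.card_le_card ?_) (card_touch_le_two (z j) (u j) τ hτ)
    intro i hi
    rw [Finset.mem_filter] at hi ⊢
    refine ⟨Finset.mem_univ _, ?_⟩
    have := hc i
    rw [hi.2] at this
    exact this
  have cardb : (Finset.univ : Finset (Fin b)).card = b := by simp
  have hint : b - 2 ≤ 2 * K.card := by
    have h1 : ∀ i ∈ (Finset.univ.erase fi).erase la, c i ∈ K := by
      intro i hi
      rw [Finset.mem_erase, Finset.mem_erase] at hi
      rcases tri i with h | h | h
      · exact absurd h hi.2.1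
      · exact absurd h hi.1
      · exact cint i h.1 h.2
    have h2 := count _ _ h1
    rw [Finset.card_erase_of_mem, Finset.card_erase_of_mem (Finset.mem_univ _), cardb] at h2
    · omega
    · rw [Finset.mem_erase]; exact ⟨hfl.ne', Finset.mem_univ _⟩
  have hEz : ∀ j ∈ L ∪ R, |z j - 1| ≤ 3 / 1000 := by
    intro j hj
    rcases Finset.mem_union.mp hj with h | h
    · exact zb j fi (hLt j h)
    · exact zb j la (hRt j h)
  have hKE : Disjoint K (L ∪ R) := by
    rw [Finset.disjoint_union_right]; exact ⟨hLK, hRK⟩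
  have cert := certB z u hz hzz hA K (L ∪ R) hKE hKz hKu hEz
  rw [Finset.card_union_of_disjoint hLR, hM] at cert
  have kL : L = ∅ → ∀ i, i ≠ la → c i ∈ K := by
    intro h0 i hi
    rcases tri i with h | h | h
    · rw [h]
      rcases cfi with h' | h'
      · exact h'
      · rw [h0] at h'; exact absurd h' (Finset.notMem_empty _)
    · exact absurd h hi
    · exact cint i h.1 h.2
  have kR : R = ∅ → ∀ i, i ≠ fi → c i ∈ K := by
    intro h0 i hi
    rcases tri i with h | h | h
    · exact absurd h hi
    · rw [h]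
      rcases cla with h' | h'
      · exact h'
      · rw [h0] at h'; exact absurd h' (Finset.notMem_empty _)
    · exact cint i h.1 h.2
  have cL1 : L = ∅ → b - 1 ≤ 2 * K.card := by
    intro h0
    have h1 : ∀ i ∈ Finset.univ.erase la, c i ∈ K := by
      intro i hi
      rw [Finset.mem_erase] at hi
      exact kL h0 i hi.1
    have h2 := count _ _ h1
    rw [Finset.card_erase_of_mem (Finset.mem_univ _), cardb] at h2
    exact h2
  have cR1 : R = ∅ → b - 1 ≤ 2 * K.card := by
    intro h0
    have h1 : ∀ i ∈ Finset.univ.erase fi, c i ∈ K := by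
      intro i hi
      rw [Finset.mem_erase] at hi
      exact kR h0 i hi.1
    have h2 := count _ _ h1
    rw [Finset.card_erase_of_mem (Finset.mem_univ _), cardb] at h2
    exact h2
  have cLR : L = ∅ → R = ∅ → b ≤ 2 * K.card := by
    intro h0 h0'
    have h1 : ∀ i ∈ (Finset.univ : Finset (Fin b)), c i ∈ K := by
      intro i _
      by_cases hi : i = la
      · apply kR h0'
        rw [hi]; exact hfl.ne'
      · exact kL h0 i hi
    have h2 := count _ _ h1
    rw [cardb] at h2
    exact h2
  rcases hb with hb | hb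
  · -- b = 5
    by_cases h0 : L = ∅
    · -- use K ∪ R
      have h1 : ∀ i ∈ (Finset.univ : Finset (Fin b)), c i ∈ K ∪ R := by
        intro i _
        by_cases hi : i = la
        · rw [hi, Finset.mem_union]; exact cla
        · exact Finset.mem_union_left _ (kL h0 i hi)
      have h2 := count _ _ h1
      rw [cardb] at h2
      refine certA (by omega) z u hz hu hzz hzu hA (K ∪ R) (by omega) ?_ ?_
      · intro j hj
        rcases Finset.mem_union.mp hj with h | h
        · exact hKz j h
        · exact zb j la (hRt j h)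
      · intro j hj
        rcases Finset.mem_union.mp hj with h | h
        · exact (abs_le.mp (hKu j h)).1
        · exact lower_of_touch (hτ1 fi) (hτ1 la) (hτ hfl) (zb j la (hRt j h)) (hle j fi)
            (hRt j h)
    · by_cases h0' : R = ∅
      · have h1 : ∀ i ∈ (Finset.univ : Finset (Fin b)), c i ∈ K ∪ L := by
          intro i _
          by_cases hi : i = fi
          · rw [hi, Finset.mem_union]; exact cfi
          · exact Finset.mem_union_left _ (kR h0' i hi)
        have h2 := count _ _ h1
        rw [cardb] at h2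
        refine certA (by omega) z (fun j => -u j) hz ?_ ?_ ?_ ?_ (K ∪ L) (by omega) ?_ ?_
        · rw [Finset.sum_neg_distrib, hu, neg_zero]
        · rw [hzz]
          apply Finset.sum_congr rfl
          intro j _; ring
        · have : ∑ j, -u j * z j = -∑ j, u j * z j := by
            rw [← Finset.sum_neg_distrib]
            apply Finset.sum_congr rfl
            intro j _; ring
          rw [this, hzu, neg_zero]
        · intro j
          rw [abs_neg]; exact hA j
        · intro j hj
          rcases Finset.mem_union.mp hj with h | h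
          · exact hKz j h
          · exact zb j fi (hLt j h)
        · intro j hj
          have : u j ≤ 3 / 1000 := by
            rcases Finset.mem_union.mp hj with h | h
            · exact (abs_le.mp (hKu j h)).2
            · exact upper_of_touch (hτ1 la) (hτ1 fi) (hτ hfl) (zb j fi (hLt j h)) (hle j la)
                (hLt j h)
          linarith
      · have h3 : 1 ≤ L.card := Finset.card_pos.mpr (Finset.nonempty_iff_ne_empty.mpr h0)
        have h4 : 1 ≤ R.card := Finset.card_pos.mpr (Finset.nonempty_iff_ne_empty.mpr h0')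
        omega
  · -- b ≥ 7
    by_cases h0 : L = ∅
    · by_cases h0' : R = ∅
      · have := cLR h0 h0'
        omega
      · have h4 : 1 ≤ R.card := Finset.card_pos.mpr (Finset.nonempty_iff_ne_empty.mpr h0')
        have := cL1 h0
        omega
    · have h3 : 1 ≤ L.card := Finset.card_pos.mpr (Finset.nonempty_iff_ne_empty.mpr h0)
      by_cases h0' : R = ∅
      · have := cR1 h0'
        omega
      · have h4 : 1 ≤ R.card := Finset.card_pos.mpr (Finset.nonempty_iff_ne_empty.mpr h0')
        omega

end Pool.Agent.Lib.MP_045051_co.Planar
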