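import Pool.Agent.Lib.MP_045051_co.Count

/-!
A net on the unit sphere of `ℝ^d`, and the estimate for one block of coordinates.
-/

namespace Pool.Agent.Lib.MP_045051_co.Net

open Finset

/-- A net of at most `5 ^ d` unit vectors. -/
theorem exists_net (d : ℕ) : ∃ A : Finset (EuclideanSpace ℝ (Fin d)), A.card ≤ 5 ^ d ∧
    (∀ a ∈ A, ‖a‖ = 1) ∧ ∀ x : EuclideanSpace ℝ (Fin d), x ≠ 0 →
      ∃ a ∈ A, ‖x‖ ≤ 2 * inner ℝ a x := by
  classical
  let Sep : Finset (EuclideanSpace ℝ (Fin d)) → Prop := fun A =>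
    (∀ a ∈ A, ‖a‖ = 1) ∧ ∀ a ∈ A, ∀ b ∈ A, a ≠ b → 1 ≤ ‖a - b‖
  let K : Set ℕ := {k | ∃ A, Sep A ∧ A.card = k}
  have hcard : ∀ A, Sep A → A.card ≤ 5 ^ d := by
    intro A hA
    have h := Besicovitch.card_le_of_separated A
      (fun a ha => by rw [hA.1 a ha]; norm_num) hA.2
    simpa using h
  have hne : K.Nonempty := ⟨0, ∅, ⟨by simp, by simp⟩, rfl⟩
  have hbdd : BddAbove K := ⟨5 ^ d, by
    rintro k ⟨A, hA, rfl⟩
    exact hcard A hA⟩
  obtain ⟨A, hA, hAk⟩ := Nat.sSup_mem hne hbdd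
  refine ⟨A, hcard A hA, hA.1, ?_⟩
  intro x hx
  have hnx : 0 < ‖x‖ := norm_pos_iff.mpr hx
  set y : EuclideanSpace ℝ (Fin d) := ‖x‖⁻¹ • x with hy
  have hny : ‖y‖ = 1 := by
    rw [hy, norm_smul, norm_inv, norm_norm, inv_mul_cancel₀ hnx.ne']
  -- there is a point of the net at distance < 1 from y
  have hex : ∃ a ∈ A, ‖a - y‖ < 1 := by
    by_contra hcon
    push Not at hcon
    have hyA : y ∉ A := by
      intro h
      have := hcon y h
      rw [sub_self, norm_zero] at this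
      linarith
    have hS : Sep (insert y A) := by
      constructor
      · intro a ha
        rcases Finset.mem_insert.mp ha with h | h
        · rw [h]; exact hny
        · exact hA.1 a h
      · intro a ha b hb hab
        rcases Finset.mem_insert.mp ha with h | h <;> rcases Finset.mem_insert.mp hb with h' | h'
        · exact absurd (h.trans h'.symm) hab
        · rw [h, norm_sub_rev]; exact hcon b h'
        · rw [h']; exact hcon a h
        · exact hA.2 a h b h' hab
    have h1 : (insert y A).card ∈ K := ⟨_, hS, rfl⟩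
    have h2 := le_csSup hbdd h1
    rw [Finset.card_insert_of_notMem hyA, hAk] at h2
    omega
  obtain ⟨a, ha, hay⟩ := hex
  refine ⟨a, ha, ?_⟩
  have h1 : ‖a - y‖ ^ 2 = ‖a‖ ^ 2 - 2 * inner ℝ a y + ‖y‖ ^ 2 := norm_sub_sq_real a y
  rw [hA.1 a ha, hny] at h1
  have h2 : ‖a - y‖ ^ 2 < 1 := by
    have := norm_nonneg (a - y)
    nlinarith
  have h3 : 1 < 2 * inner ℝ a y := by linarith
  have h4 : inner ℝ a x = ‖x‖ * inner ℝ a y := by
    rw [hy, inner_smul_right]
    field_simp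
  rw [h4]
  nlinarith

/-- The point with parameter `t` of the circle through the orthonormal pair `p, q`. -/
noncomputable def cl {V : Type*} [AddCommGroup V] [Module ℝ V] (p q : V) (t : ℝ) : V :=
  ((1 - t ^ 2) / (1 + t ^ 2)) • p + (2 * t / (1 + t ^ 2)) • q

theorem inner_cl {V : Type*} [NormedAddCommGroup V] [InnerProductSpace ℝ V] (p q y : V) (t : ℝ) :
    inner ℝ y (cl p q t) =
      ((1 - t ^ 2) * inner ℝ y p + 2 * t * inner ℝ y q) / (1 + t ^ 2) := by
  unfold cl
  rw [inner_add_right, inner_smul_right, inner_smul_right]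
  have hpos : 0 < 1 + t ^ 2 := by positivity
  field_simp

theorem norm_cl_sub {V : Type*} [NormedAddCommGroup V] [InnerProductSpace ℝ V] {p q : V}
    (hp : ‖p‖ = 1) (hq : ‖q‖ = 1) {t : ℝ} (ht : |t| ≤ 1 / 1000) :
    ‖cl p q t - p‖ ≤ 1 / 400 := by
  have hpos : 0 < 1 + t ^ 2 := by positivity
  have h1 : cl p q t - p = (2 * t / (1 + t ^ 2)) • (q - t • p) := by
    unfold cl
    rw [smul_sub, smul_smul]
    have : (1 - t ^ 2) / (1 + t ^ 2) = 1 - 2 * t / (1 + t ^ 2) * t := by
      field_simp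
      ring
    rw [this, sub_smul, one_smul]
    abel
  have h2 : ‖q - t • p‖ ≤ 1 + 1 / 1000 := by
    calc ‖q - t • p‖ ≤ ‖q‖ + ‖t • p‖ := norm_sub_le _ _
      _ = 1 + |t| := by rw [norm_smul, hp, hq, Real.norm_eq_abs, mul_one]
      _ ≤ 1 + 1 / 1000 := by linarith
  have h3 : |2 * t / (1 + t ^ 2)| ≤ 2 / 1000 := by
    rw [abs_div, abs_of_pos hpos, abs_mul, abs_of_pos (by norm_num : (0 : ℝ) < 2)]
    rw [div_le_iff₀ hpos]
    have : 0 ≤ t ^ 2 := sq_nonneg t
    nlinarith
  rw [h1, norm_smul, Real.norm_eq_abs]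
  have h4 : 0 ≤ ‖q - t • p‖ := norm_nonneg _
  have h5 : 0 ≤ |2 * t / (1 + t ^ 2)| := abs_nonneg _
  nlinarith

/-- A linear functional takes a value `±c`, `c > 0`, at most at four points of the circle. -/
theorem card_touch_le_four {V : Type*} [NormedAddCommGroup V] [InnerProductSpace ℝ V]
    {b : ℕ} (p q y : V) (c : ℝ) (hc : 0 < c) (τ : Fin b → ℝ) (hτ : StrictMono τ) :
    (Finset.univ.filter (fun i : Fin b => |inner ℝ y (cl p q (τ i))| = c)).card ≤ 4 := by
  classical
  have h1 := Planar.card_touch_le_two (inner ℝ y p / c) (inner ℝ y q / c) τ hτ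
  have h2 := Planar.card_touch_le_two (-(inner ℝ y p) / c) (-(inner ℝ y q) / c) τ hτ
  have hsub : Finset.univ.filter (fun i : Fin b => |inner ℝ y (cl p q (τ i))| = c) ⊆
      Finset.univ.filter (fun i : Fin b =>
        Planar.g (inner ℝ y p / c) (inner ℝ y q / c) (τ i) = 0) ∪
      Finset.univ.filter (fun i : Fin b =>
        Planar.g (-(inner ℝ y p) / c) (-(inner ℝ y q) / c) (τ i) = 0) := by
    intro i hi
    rw [Finset.mem_filter] at hi
    rw [Finset.mem_union, Finset.mem_filter, Finset.mem_filter]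
    have h := hi.2
    have hpos : 0 < 1 + τ i ^ 2 := by positivity
    rcases eq_or_eq_neg_of_abs_eq h with h | h
    · left
      refine ⟨Finset.mem_univ _, ?_⟩
      rw [inner_cl, div_eq_iff hpos.ne'] at h
      unfold Planar.g
      field_simp
      linarith
    · right
      refine ⟨Finset.mem_univ _, ?_⟩
      rw [inner_cl, div_eq_iff hpos.ne'] at h
      unfold Planar.g
      field_simp
      linarith
  calc _ ≤ _ := Finset.card_le_card hsub
    _ ≤ _ := Finset.card_union_le _ _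
    _ ≤ 4 := by omega

/-- The estimate for one block of coordinates. -/
theorem block_neg {V : Type*} [NormedAddCommGroup V] [InnerProductSpace ℝ V]
    {J : Type*} (B : Finset J) (y : J → V) (p q : V)
    (hp : ‖p‖ = 1) (hq : ‖q‖ = 1) (A : Finset V)
    (hA : ∀ x : V, x ≠ 0 → ∃ a ∈ A, ‖x‖ ≤ 2 * inner ℝ a x)
    {b : ℕ} (τ : Fin b → ℝ) (hτ : StrictMono τ) (hτ1 : ∀ i, |τ i| ≤ 1 / 1000)
    (D : ℕ) (hD : 17 * B.card < D * b) (c : ℝ) (hc : 0 < c)
    (h1 : ∀ j ∈ B, ∀ a ∈ A, |inner ℝ (y j) a| ≤ c)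
    (h2 : ∀ i, ∃ j ∈ B, |inner ℝ (y j) (cl p q (τ i))| = c) :
    ∑ j ∈ B, (‖y j‖ ^ 2 - D * (inner ℝ (y j) p) ^ 2) < 0 := by
  classical
  have hy : ∀ j ∈ B, ‖y j‖ ≤ 2 * c := by
    intro j hj
    by_cases h0 : y j = 0
    · rw [h0, norm_zero]; linarith
    · obtain ⟨a, ha, h⟩ := hA (y j) h0
      have h' := h1 j hj a ha
      rw [real_inner_comm] at h
      have := le_abs_self (inner ℝ (y j) a)
      linarith
  set T : Finset J := B.filter (fun j => ∃ i, |inner ℝ (y j) (cl p q (τ i))| = c) with hT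
  have hTB : T ⊆ B := Finset.filter_subset _ _
  -- lower bound on the number of touching coordinates
  have hbT : b ≤ 4 * T.card := by
    choose f hf using h2
    have h3 : ∀ i ∈ (Finset.univ : Finset (Fin b)), f i ∈ T := by
      intro i _
      rw [hT, Finset.mem_filter]
      exact ⟨(hf i).1, i, (hf i).2⟩
    have h4 := Finset.card_le_mul_card_image_of_maps_to h3 4 (by
      intro j _
      refine le_trans (Finset.card_le_card ?_) (card_touch_le_four p q (y j) c hc τ hτ)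
      intro i hi
      rw [Finset.mem_filter] at hi ⊢
      refine ⟨Finset.mem_univ _, ?_⟩
      have := (hf i).2
      rw [hi.2] at this
      exact this)
    simpa using h4
  have hTp : ∀ j ∈ T, 99 / 100 * c ≤ |inner ℝ (y j) p| := by
    intro j hj
    rw [hT, Finset.mem_filter] at hj
    obtain ⟨hjB, i, hi⟩ := hj
    have e1 : inner ℝ (y j) (cl p q (τ i)) = inner ℝ (y j) p + inner ℝ (y j) (cl p q (τ i) - p) := by
      rw [← inner_add_right]; congr 1; abel
    have e2 : |inner ℝ (y j) (cl p q (τ i) - p)| ≤ 2 * c * (1 / 400) := by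
      calc |inner ℝ (y j) (cl p q (τ i) - p)| ≤ ‖y j‖ * ‖cl p q (τ i) - p‖ :=
            abs_real_inner_le_norm _ _
        _ ≤ 2 * c * (1 / 400) := by
            apply mul_le_mul (hy j hjB) (norm_cl_sub hp hq (hτ1 i)) (norm_nonneg _)
            linarith
    have e3 : c ≤ |inner ℝ (y j) p| + |inner ℝ (y j) (cl p q (τ i) - p)| := by
      rw [← hi, e1]; exact abs_add_le _ _
    linarith
  have hle : ∑ j ∈ B, (‖y j‖ ^ 2 - D * (inner ℝ (y j) p) ^ 2) ≤
      ∑ j ∈ B, (4 * c ^ 2 - if j ∈ T then D * (98 / 100) * c ^ 2 else 0) := by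
    apply Finset.sum_le_sum
    intro j hj
    have f1 : ‖y j‖ ^ 2 ≤ 4 * c ^ 2 := by
      have := hy j hj
      have h0 := norm_nonneg (y j)
      nlinarith
    have hD0 : (0 : ℝ) ≤ D := Nat.cast_nonneg D
    split_ifs with h
    · have f2 := hTp j h
      have f3 : (98 / 100) * c ^ 2 ≤ (inner ℝ (y j) p) ^ 2 := by
        rw [← sq_abs (inner ℝ (y j) p)]
        nlinarith [abs_nonneg (inner ℝ (y j) p)]
      have f4 : D * ((98 / 100) * c ^ 2) ≤ D * (inner ℝ (y j) p) ^ 2 :=
        mul_le_mul_of_nonneg_left f3 hD0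
      linarith
    · have f5 : 0 ≤ (D : ℝ) * (inner ℝ (y j) p) ^ 2 := mul_nonneg hD0 (sq_nonneg _)
      linarith
  refine lt_of_le_of_lt hle ?_
  rw [Finset.sum_sub_distrib, Finset.sum_const, nsmul_eq_mul, Finset.sum_ite_mem,
    Finset.inter_eq_right.mpr hTB, Finset.sum_const, nsmul_eq_mul]
  have g1 : (17 * B.card : ℝ) < D * b := by exact_mod_cast hD
  have g2 : (b : ℝ) ≤ 4 * T.card := by exact_mod_cast hbT
  have g3 : (17 * B.card : ℝ) < 4 * (D * T.card) := by
    have : (D : ℝ) * b ≤ D * (4 * T.card) := mul_le_mul_of_nonneg_left g2 (Nat.cast_nonneg D)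
    linarith
  have g4 : (4 * B.card : ℝ) < 98 / 100 * (D * T.card) := by
    have g5 : (0 : ℝ) ≤ B.card := Nat.cast_nonneg _
    linarith
  have hc2 : 0 < c ^ 2 := by positivity
  nlinarith

end Pool.Agent.Lib.MP_045051_co.Net
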