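import Mathlib

/-!
Planar core of the counterexample: a family of `b + 3` points `(z j, u j)` of the plane with mean
zero and isotropic second moments cannot touch all the sides of a polygon having `b` sides close to
the line `z = 1` and two more sides.
-/

namespace Pool.Agent.Lib.MP_045051_co.Planar

open Finset

/-- `g z u t = (1 + z) t² - 2 u t + (1 - z)`; it vanishes iff the point `(z, u)` lies on the side
with parameter `t`. -/
def g (z u t : ℝ) : ℝ := (1 + z) * t ^ 2 - 2 * u * t + (1 - z)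

theorem g_sub (z u s t : ℝ) : g z u s - g z u t = (s - t) * ((1 + z) * (s + t) - 2 * u) := by
  unfold g; ring

/-- A point touching three sides does not exist. -/
theorem not_three {z u r s t : ℝ} (hrs : r < s) (hst : s < t) (h1 : g z u r = 0)
    (h2 : g z u s = 0) (h3 : g z u t = 0) : False := by
  have e1 := g_sub z u r s
  have e2 := g_sub z u s t
  rw [h1, h2, sub_zero] at e1
  rw [h2, h3, sub_zero] at e2
  have f1 : (1 + z) * (r + s) - 2 * u = 0 := by
    rcases mul_eq_zero.mp e1.symm with h | h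
    · linarith
    · exact h
  have f2 : (1 + z) * (s + t) - 2 * u = 0 := by
    rcases mul_eq_zero.mp e2.symm with h | h
    · linarith
    · exact h
  have f3 : (1 + z) * (t - r) = 0 := by linarith
  have f4 : 1 + z = 0 := by
    rcases mul_eq_zero.mp f3 with h | h
    · exact h
    · linarith
  have f5 : u = 0 := by rw [f4] at f1; linarith
  unfold g at h1
  rw [f4, f5] at h1
  linarith

/-- Bounds for a point touching a side of the cluster. -/
theorem touch_bound {z u t : ℝ} (ht : |t| ≤ 1 / 1000) (hA : |u| * 24 ≤ 25 + 7 * z)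
    (h : g z u t = 0) : |z - 1| ≤ 3 / 1000 := by
  unfold g at h
  obtain ⟨ht1, ht2⟩ := abs_le.mp ht
  have hut : |u * t| ≤ |u| / 1000 := by
    rw [abs_mul]
    have := mul_le_mul_of_nonneg_left ht (abs_nonneg u)
    linarith
  obtain ⟨h1, h2⟩ := abs_le.mp hut
  have ht2' : t ^ 2 ≤ 1 / 1000000 := by nlinarith
  have ht0 : 0 ≤ t ^ 2 := sq_nonneg t
  have hu0 : 0 ≤ |u| := abs_nonneg u
  -- z (1 - t²) = 1 + t² - 2 u t
  have key : z * (1 - t ^ 2) = 1 + t ^ 2 - 2 * (u * t) := by linarith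
  have hzlow : -25 / 7 ≤ z := by linarith
  have hup : z ≤ 1003 / 1000 := by
    by_contra hcon
    push Not at hcon
    nlinarith
  have hulow : |u| ≤ 14 / 10 := by linarith
  have hlow : 997 / 1000 ≤ z := by
    by_contra hcon
    push Not at hcon
    nlinarith
  rw [abs_le]
  constructor <;> linarith

/-- A point touching two sides of the cluster is close to `(1, 0)`. -/
theorem two_bound {z u s t : ℝ} (hs : |s| ≤ 1 / 1000) (ht : |t| ≤ 1 / 1000) (hst : s < t)
    (hz : |z - 1| ≤ 3 / 1000) (h1 : g z u s = 0) (h2 : g z u t = 0) : |u| ≤ 3 / 1000 := by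
  have e1 := g_sub z u s t
  rw [h1, h2, sub_zero] at e1
  have f1 : (1 + z) * (s + t) - 2 * u = 0 := by
    rcases mul_eq_zero.mp e1.symm with h | h
    · linarith
    · exact h
  obtain ⟨a1, a2⟩ := abs_le.mp hs
  obtain ⟨b1, b2⟩ := abs_le.mp ht
  obtain ⟨c1, c2⟩ := abs_le.mp hz
  rw [abs_le]
  constructor <;> nlinarith

/-- If the point touches side `t` and is below side `s > t`, then `u` is small from above. -/
theorem upper_of_touch {z u s t : ℝ} (hs : |s| ≤ 1 / 1000) (ht : |t| ≤ 1 / 1000) (hst : t < s)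
    (hz : |z - 1| ≤ 3 / 1000) (h1 : 0 ≤ g z u s) (h2 : g z u t = 0) : u ≤ 3 / 1000 := by
  have e1 := g_sub z u s t
  rw [h2, sub_zero] at e1
  rw [e1] at h1
  have f1 : 0 ≤ (1 + z) * (s + t) - 2 * u := by
    by_contra hcon
    push Not at hcon
    have : (s - t) * ((1 + z) * (s + t) - 2 * u) < 0 :=
      mul_neg_of_pos_of_neg (by linarith) hcon
    linarith
  obtain ⟨a1, a2⟩ := abs_le.mp hs
  obtain ⟨b1, b2⟩ := abs_le.mp ht
  obtain ⟨c1, c2⟩ := abs_le.mp hz
  nlinarith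

/-- If the point touches side `t` and is below side `s < t`, then `u` is small from below. -/
theorem lower_of_touch {z u s t : ℝ} (hs : |s| ≤ 1 / 1000) (ht : |t| ≤ 1 / 1000) (hst : s < t)
    (hz : |z - 1| ≤ 3 / 1000) (h1 : 0 ≤ g z u s) (h2 : g z u t = 0) : -(3 / 1000) ≤ u := by
  have e1 := g_sub z u s t
  rw [h2, sub_zero] at e1
  rw [e1] at h1
  have f1 : (1 + z) * (s + t) - 2 * u ≤ 0 := by
    by_contra hcon
    push Not at hcon
    have : (s - t) * ((1 + z) * (s + t) - 2 * u) < 0 :=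
      mul_neg_of_neg_of_pos (by linarith) hcon
    linarith
  obtain ⟨a1, a2⟩ := abs_le.mp hs
  obtain ⟨b1, b2⟩ := abs_le.mp ht
  obtain ⟨c1, c2⟩ := abs_le.mp hz
  nlinarith

/-- First test function, general bound. -/
theorem phi2_all {z u : ℝ} (hA : |u| * 24 ≤ 25 + 7 * z) :
    u ^ 2 - z ^ 2 - 2 * z ≤ 1615 / 1000 := by
  have h0 : 0 ≤ |u| := abs_nonneg u
  have h1 : u ^ 2 = |u| ^ 2 := (sq_abs u).symm
  have h2 : |u| ≤ (25 + 7 * z) / 24 := by linarith
  have h3 : |u| ^ 2 ≤ ((25 + 7 * z) / 24) ^ 2 := by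
    apply pow_le_pow_left₀ h0 h2
  nlinarith [sq_nonneg (z + 401 / 527)]

theorem phi2_core {z u : ℝ} (hz : |z - 1| ≤ 3 / 1000) (hu : |u| ≤ 3 / 1000) :
    u ^ 2 - z ^ 2 - 2 * z ≤ -(298 / 100) := by
  obtain ⟨c1, c2⟩ := abs_le.mp hz
  obtain ⟨d1, d2⟩ := abs_le.mp hu
  nlinarith

theorem phi2_end {z u : ℝ} (hz : |z - 1| ≤ 3 / 1000) (hA : |u| * 24 ≤ 25 + 7 * z) :
    u ^ 2 - z ^ 2 - 2 * z ≤ -(12 / 10) := by
  obtain ⟨c1, c2⟩ := abs_le.mp hz
  have h0 : 0 ≤ |u| := abs_nonneg u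
  have h1 : u ^ 2 = |u| ^ 2 := (sq_abs u).symm
  have h2 : |u| ≤ 13345 / 10000 := by linarith
  have h3 : |u| ^ 2 ≤ (13345 / 10000) ^ 2 := pow_le_pow_left₀ h0 h2 2
  nlinarith

/-- Second (asymmetric) test function. -/
theorem phi1_all {z u : ℝ} (hA : |u| * 24 ≤ 25 + 7 * z) :
    u ^ 2 - z ^ 2 - 4 / 5 * (u * z) - 8 / 15 * u - 19 / 10 * z ≤ 1675 / 1000 := by
  obtain ⟨a1, a2⟩ := abs_le.mp (show |u| ≤ (25 + 7 * z) / 24 by linarith)
  have hw : 0 ≤ (25 + 7 * z) / 24 := le_trans (abs_nonneg u) (by linarith)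
  have hsq : u ^ 2 ≤ ((25 + 7 * z) / 24) ^ 2 := by
    nlinarith
  -- linear part
  rcases le_total 0 (4 / 5 * z + 8 / 15) with hc | hc
  · -- maximal at u = -w
    have : -(4 / 5 * z + 8 / 15) * u ≤ (4 / 5 * z + 8 / 15) * ((25 + 7 * z) / 24) := by
      nlinarith
    nlinarith [sq_nonneg (z + 2226 / 10000)]
  · have : -(4 / 5 * z + 8 / 15) * u ≤ -(4 / 5 * z + 8 / 15) * ((25 + 7 * z) / 24) := by
      nlinarith
    nlinarith [sq_nonneg (z + 9933 / 10000)]

theorem phi1_right {z u : ℝ} (hz : |z - 1| ≤ 3 / 1000) (hA : |u| * 24 ≤ 25 + 7 * z)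
    (hu : -(3 / 1000) ≤ u) :
    u ^ 2 - z ^ 2 - 4 / 5 * (u * z) - 8 / 15 * u - 19 / 10 * z ≤ -(287 / 100) := by
  obtain ⟨c1, c2⟩ := abs_le.mp hz
  obtain ⟨a1, a2⟩ := abs_le.mp (show |u| ≤ 13345 / 10000 by linarith)
  have h1 : (u + 3 / 1000) * (13345 / 10000 - u) ≥ 0 :=
    mul_nonneg (by linarith) (by linarith)
  nlinarith

variable {ι : Type*} [Fintype ι]

/-- Certificate for three points touching the right part. -/
theorem certA (hM : Fintype.card ι = 8) (z u : ι → ℝ)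
    (hz : ∑ j, z j = 0) (hu : ∑ j, u j = 0) (hzz : ∑ j, (z j) ^ 2 = ∑ j, (u j) ^ 2)
    (hzu : ∑ j, u j * z j = 0) (hA : ∀ j, |u j| * 24 ≤ 25 + 7 * z j)
    (W : Finset ι) (hW : 3 ≤ W.card)
    (hW1 : ∀ j ∈ W, |z j - 1| ≤ 3 / 1000) (hW2 : ∀ j ∈ W, -(3 / 1000) ≤ u j) : False := by
  classical
  have hsum : ∑ j, ((u j) ^ 2 - (z j) ^ 2 - 4 / 5 * (u j * z j) - 8 / 15 * u j - 19 / 10 * z j)
      = 0 := by
    simp only [Finset.sum_sub_distrib, ← Finset.mul_sum]
    rw [hz, hu, hzu, hzz]; ring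
  have hle : ∑ j, ((u j) ^ 2 - (z j) ^ 2 - 4 / 5 * (u j * z j) - 8 / 15 * u j - 19 / 10 * z j)
      ≤ ∑ j, (if j ∈ W then -(287 / 100 : ℝ) else 1675 / 1000) := by
    apply Finset.sum_le_sum
    intro j _
    split_ifs with h
    · exact phi1_right (hW1 j h) (hA j) (hW2 j h)
    · exact phi1_all (hA j)
  rw [hsum, Finset.sum_ite, Finset.sum_const, Finset.sum_const, nsmul_eq_mul, nsmul_eq_mul] at hle
  have h1 : (Finset.univ.filter (fun j => j ∈ W)) = W := by ext; simp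
  have h2 : (Finset.univ.filter (fun j => j ∉ W)).card = 8 - W.card := by
    have : (Finset.univ.filter (fun j => j ∉ W)) = Wᶜ := by ext; simp
    rw [this, Finset.card_compl, hM]
  rw [h1, h2] at hle
  have hWle : W.card ≤ 8 := by rw [← hM]; exact Finset.card_le_univ W
  rw [Nat.cast_sub hWle] at hle
  have hW' : (3 : ℝ) ≤ W.card := by exact_mod_cast hW
  push_cast at hle
  nlinarith

/-- General certificate: `K` the points near `(1,0)`, `E` the other points touching the cluster. -/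
theorem certB (z u : ι → ℝ)
    (hz : ∑ j, z j = 0) (hzz : ∑ j, (z j) ^ 2 = ∑ j, (u j) ^ 2)
    (hA : ∀ j, |u j| * 24 ≤ 25 + 7 * z j)
    (K E : Finset ι) (hKE : Disjoint K E)
    (hK1 : ∀ j ∈ K, |z j - 1| ≤ 3 / 1000) (hK2 : ∀ j ∈ K, |u j| ≤ 3 / 1000)
    (hE : ∀ j ∈ E, |z j - 1| ≤ 3 / 1000) :
    4595 * K.card + 2815 * E.card ≤ 1615 * Fintype.card ι := by
  classical
  have hsum : ∑ j, ((u j) ^ 2 - (z j) ^ 2 - 2 * z j) = 0 := by
    simp only [Finset.sum_sub_distrib, ← Finset.mul_sum]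
    rw [hz, hzz]; ring
  have hle : ∑ j, ((u j) ^ 2 - (z j) ^ 2 - 2 * z j)
      ≤ ∑ j, ((1615 / 1000 : ℝ) - (if j ∈ K then 4595 / 1000 else 0)
          - (if j ∈ E then 2815 / 1000 else 0)) := by
    apply Finset.sum_le_sum
    intro j _
    by_cases h1 : j ∈ K
    · have h2 : j ∉ E := Finset.disjoint_left.mp hKE h1
      simp only [h1, h2, if_true, if_false]
      have := phi2_core (hK1 j h1) (hK2 j h1)
      linarith
    · by_cases h2 : j ∈ E
      · simp only [h1, h2, if_true, if_false]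
        have := phi2_end (hE j h2) (hA j)
        linarith
      · simp only [h1, h2, if_false]
        have := phi2_all (hA j)
        linarith
  rw [hsum] at hle
  simp only [Finset.sum_sub_distrib, Finset.sum_ite_mem, Finset.univ_inter, Finset.sum_const,
    nsmul_eq_mul, Finset.card_univ] at hle
  have : (4595 * K.card + 2815 * E.card : ℝ) ≤ 1615 * Fintype.card ι := by linarith
  exact_mod_cast this

end Pool.Agent.Lib.MP_045051_co.Planar
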