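import Pool.Agent.Lib.MP_045051_co.Count

/-!
The support function of a centred regular simplex, restricted to a plane.
-/

namespace Pool.Agent.Lib.MP_045051_co.Simplex

open Finset

/-- A linear isometric embedding of `ℝ^{n+1}` into `ℝ^{n+2}` onto the vectors of sum zero. -/
theorem exists_iso (n : ℕ) : ∃ L : EuclideanSpace ℝ (Fin (n + 1)) →ₗᵢ[ℝ]
    EuclideanSpace ℝ (Fin (n + 2)), ∀ x, ∑ j, L x j = 0 := by
  set v : EuclideanSpace ℝ (Fin (n + 2)) := WithLp.toLp 2 (fun _ => (1 : ℝ)) with hv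
  have hv0 : v ≠ 0 := by
    intro h
    have := congrArg (fun w : EuclideanSpace ℝ (Fin (n + 2)) => w 0) h
    simp [hv] at this
  have : Fact (Module.finrank ℝ (EuclideanSpace ℝ (Fin (n + 2))) = (n + 1) + 1) :=
    ⟨by simp⟩
  let B := OrthonormalBasis.fromOrthogonalSpanSingleton (𝕜 := ℝ) (n + 1) hv0
  refine ⟨(Submodule.subtypeₗᵢ (ℝ ∙ v)ᗮ).comp B.repr.symm.toLinearIsometry, ?_⟩
  intro x
  have h1 : (B.repr.symm x : EuclideanSpace ℝ (Fin (n + 2))) ∈ (ℝ ∙ v)ᗮ := (B.repr.symm x).2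
  rw [Submodule.mem_orthogonal_singleton_iff_inner_right] at h1
  rw [PiLp.inner_apply] at h1
  simpa [hv] using h1

/-- The continuous function `x ↦ max_j (L x)_j`. -/
noncomputable def supf {n : ℕ} (L : EuclideanSpace ℝ (Fin (n + 1)) →ₗᵢ[ℝ]
    EuclideanSpace ℝ (Fin (n + 2))) (x : EuclideanSpace ℝ (Fin (n + 1))) : ℝ :=
  Finset.univ.sup' Finset.univ_nonempty (fun j : Fin (n + 2) => L x j)

theorem continuous_supf {n : ℕ} (L : EuclideanSpace ℝ (Fin (n + 1)) →ₗᵢ[ℝ]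
    EuclideanSpace ℝ (Fin (n + 2))) : Continuous (supf L) := by
  unfold supf
  apply Continuous.finset_sup'_apply
  intro j _
  have h1 : Continuous (fun x => L x) := L.continuous
  fun_prop

theorem le_supf {n : ℕ} (L : EuclideanSpace ℝ (Fin (n + 1)) →ₗᵢ[ℝ]
    EuclideanSpace ℝ (Fin (n + 2))) (x : EuclideanSpace ℝ (Fin (n + 1))) (j : Fin (n + 2)) :
    L x j ≤ supf L x :=
  Finset.le_sup' (fun j : Fin (n + 2) => L x j) (Finset.mem_univ j)

theorem exists_supf {n : ℕ} (L : EuclideanSpace ℝ (Fin (n + 1)) →ₗᵢ[ℝ]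
    EuclideanSpace ℝ (Fin (n + 2))) (x : EuclideanSpace ℝ (Fin (n + 1))) :
    ∃ j : Fin (n + 2), L x j = supf L x := by
  obtain ⟨j, _, hj⟩ := Finset.exists_mem_eq_sup' Finset.univ_nonempty
    (fun j : Fin (n + 2) => L x j)
  exact ⟨j, hj.symm⟩

/-- Key statement: let `p, q` be orthonormal. The maximum of the coordinates of a zero sum
isometric embedding cannot be constant on the `n - 1` points
`((1 - τ²) p + 2 τ q) / (1 + τ²)` and the two points `-7/25 p ± 24/25 q`. -/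
theorem key {n : ℕ} (hn : n = 6 ∨ 8 ≤ n)
    (L : EuclideanSpace ℝ (Fin (n + 1)) →ₗᵢ[ℝ] EuclideanSpace ℝ (Fin (n + 2)))
    (hL : ∀ x, ∑ j, L x j = 0) (p q : EuclideanSpace ℝ (Fin (n + 1)))
    (hp : ‖p‖ = 1) (hq : ‖q‖ = 1) (hpq : inner ℝ p q = 0)
    (τ : Fin (n - 1) → ℝ) (hτ : StrictMono τ) (hτ1 : ∀ i, |τ i| ≤ 1 / 1000) (c : ℝ)
    (h1 : ∀ i, supf L (((1 - τ i ^ 2) / (1 + τ i ^ 2)) • p + (2 * τ i / (1 + τ i ^ 2)) • q) = c)
    (h2 : supf L ((-(7 / 25 : ℝ)) • p + (24 / 25 : ℝ) • q) = c)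
    (h3 : supf L ((-(7 / 25 : ℝ)) • p + (-(24 / 25 : ℝ)) • q) = c) : False := by
  have lin : ∀ (a b : ℝ) (j : Fin (n + 2)), L (a • p + b • q) j = a * L p j + b * L q j := by
    intro a b j
    rw [map_add, map_smul, map_smul]
    simp
  have sq_sum : ∀ x : EuclideanSpace ℝ (Fin (n + 1)), ∑ j, (L x j) ^ 2 = ‖x‖ ^ 2 := by
    intro x
    rw [← L.norm_map x, EuclideanSpace.norm_sq_eq]
    simp
  have hzz : ∑ j, (L p j) ^ 2 = 1 := by rw [sq_sum, hp]; norm_num
  have huu : ∑ j, (L q j) ^ 2 = 1 := by rw [sq_sum, hq]; norm_num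
  have hzu : ∑ j, L q j * L p j = 0 := by
    have : inner ℝ (L p) (L q) = 0 := by rw [L.inner_map_map]; exact hpq
    rw [PiLp.inner_apply] at this
    simpa using this
  -- positivity of c
  have hcpos : 0 < c := by
    by_contra hcon
    push Not at hcon
    have hle : ∀ j, L ((-(7 / 25 : ℝ)) • p + (24 / 25 : ℝ) • q) j ≤ 0 := fun j =>
      le_trans (le_supf L _ j) (by rw [h2]; exact hcon)
    have hz : ∀ j ∈ (Finset.univ : Finset (Fin (n + 2))),
        L ((-(7 / 25 : ℝ)) • p + (24 / 25 : ℝ) • q) j = 0 :=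
      (Finset.sum_eq_zero_iff_of_nonpos (fun j _ => hle j)).mp (hL _)
    have hnorm : ‖(-(7 / 25 : ℝ)) • p + (24 / 25 : ℝ) • q‖ ^ 2 = 0 := by
      rw [← sq_sum]
      apply Finset.sum_eq_zero
      intro j hj
      rw [hz j hj]; norm_num
    have hnorm2 : ‖(-(7 / 25 : ℝ)) • p + (24 / 25 : ℝ) • q‖ ^ 2 = 1 := by
      rw [norm_add_sq_real, inner_smul_left, inner_smul_right, hpq, norm_smul, norm_smul, hp, hq]
      norm_num
    rw [hnorm] at hnorm2
    norm_num at hnorm2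
  -- apply the planar lemma
  have hb : n - 1 = 5 ∨ 7 ≤ n - 1 := by omega
  refine Planar.planar_core (ι := Fin (n + 2)) (n - 1) hb (by rw [Fintype.card_fin]; omega)
    (fun j => L p j / c) (fun j => L q j / c) ?_ ?_ ?_ ?_ ?_ τ hτ hτ1 ?_ ?_
  · rw [← Finset.sum_div, hL, zero_div]
  · rw [← Finset.sum_div, hL, zero_div]
  · simp only [div_pow, ← Finset.sum_div]
    rw [hzz, huu]
  · have : ∀ j, L q j / c * (L p j / c) = (L q j * L p j) / c ^ 2 := by
      intro j; field_simp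
    simp only [this]
    rw [← Finset.sum_div, hzu, zero_div]
  · intro j
    have e1 := le_supf L ((-(7 / 25 : ℝ)) • p + (24 / 25 : ℝ) • q) j
    have e2 := le_supf L ((-(7 / 25 : ℝ)) • p + (-(24 / 25 : ℝ)) • q) j
    rw [h2, lin] at e1
    rw [h3, lin] at e2
    have e3 : |L q j| * 24 ≤ 25 * c + 7 * L p j := by
      rcases abs_cases (L q j) with ⟨h, _⟩ | ⟨h, _⟩ <;> rw [h] <;> linarith
    have e4 : |L q j / c| = |L q j| / c := by rw [abs_div, abs_of_pos hcpos]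
    rw [e4]
    have e5 : 25 + 7 * (L p j / c) = (25 * c + 7 * L p j) / c := by field_simp
    rw [e5, div_mul_eq_mul_div]
    exact div_le_div_of_nonneg_right e3 hcpos.le
  · intro j i
    have e1 := le_supf L (((1 - τ i ^ 2) / (1 + τ i ^ 2)) • p + (2 * τ i / (1 + τ i ^ 2)) • q) j
    rw [h1, lin] at e1
    have hpos : 0 < 1 + τ i ^ 2 := by positivity
    have e2 : (1 - τ i ^ 2) * L p j + 2 * τ i * L q j ≤ c * (1 + τ i ^ 2) := by
      have : (1 - τ i ^ 2) / (1 + τ i ^ 2) * L p j + 2 * τ i / (1 + τ i ^ 2) * L q j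
          = ((1 - τ i ^ 2) * L p j + 2 * τ i * L q j) / (1 + τ i ^ 2) := by field_simp
      rw [this, div_le_iff₀ hpos] at e1
      exact e1
    have e3 : Planar.g (L p j / c) (L q j / c) (τ i)
        = (c * (1 + τ i ^ 2) - ((1 - τ i ^ 2) * L p j + 2 * τ i * L q j)) / c := by
      unfold Planar.g
      field_simp
      ring
    rw [e3]
    exact div_nonneg (by linarith) hcpos.le
  · intro i
    obtain ⟨j, hj⟩ := exists_supf L
      (((1 - τ i ^ 2) / (1 + τ i ^ 2)) • p + (2 * τ i / (1 + τ i ^ 2)) • q)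
    refine ⟨j, ?_⟩
    rw [h1, lin] at hj
    have hpos : 0 < 1 + τ i ^ 2 := by positivity
    have e2 : (1 - τ i ^ 2) * L p j + 2 * τ i * L q j = c * (1 + τ i ^ 2) := by
      have : (1 - τ i ^ 2) / (1 + τ i ^ 2) * L p j + 2 * τ i / (1 + τ i ^ 2) * L q j
          = ((1 - τ i ^ 2) * L p j + 2 * τ i * L q j) / (1 + τ i ^ 2) := by field_simp
      rw [this, div_eq_iff hpos.ne'] at hj
      exact hj
    have e3 : Planar.g (L p j / c) (L q j / c) (τ i)
        = (c * (1 + τ i ^ 2) - ((1 - τ i ^ 2) * L p j + 2 * τ i * L q j)) / c := by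
      unfold Planar.g
      field_simp
      ring
    rw [e3, e2]
    simp

end Pool.Agent.Lib.MP_045051_co.Simplex
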